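import Pool.Agent.TH72.SR.Loc

/-!
Real quadratic fields which split at small primes.
-/

set_option autoImplicit false

open Pool.Agent.TH965.St Polynomial

namespace Pool.Agent.TH72.SR

/-- `1 + 8 M b` is a square in `ℚ_p` if `p` divides `M` -/
theorem padic_square {p : ℕ} [hp : Fact p.Prime] {M : ℕ} (hM : p ∣ M) (b : ℕ) :
    ∃ s : ℚ_[p], s ^ 2 = ((1 + 8 * M * b : ℕ) : ℚ_[p]) := by
  set a : ℕ := 1 + 8 * M * b with ha
  have hnorm : ‖((2 * M * b : ℕ) : ℤ_[p])‖ < 1 := by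
    have h : ((2 * M * b : ℕ) : ℤ_[p]) = (((2 * M * b : ℕ) : ℤ) : ℤ_[p]) := by push_cast; rfl
    rw [h, PadicInt.norm_int_lt_one_iff_dvd]
    have : p ∣ 2 * M * b := (hM.mul_left 2).mul_right b
    exact_mod_cast this
  obtain ⟨z, hz, -⟩ := hensels_lemma (p := p) (F := (X ^ 2 - C (a : ℤ) : ℤ[X])) (a := (1 : ℤ_[p])) (by
    have e1 : (aeval (1 : ℤ_[p])) (X ^ 2 - C (a : ℤ) : ℤ[X]) =
        -((2 : ℤ_[p]) ^ 2 * ((2 * M * b : ℕ) : ℤ_[p])) := by
      simp only [map_sub, map_pow, aeval_X, one_pow, aeval_C, ha]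
      push_cast
      simp
      ring
    have e2 : (aeval (1 : ℤ_[p])) (derivative (X ^ 2 - C (a : ℤ) : ℤ[X])) = 2 := by
      simp
      exact map_ofNat _ 2
    rw [e1, e2, norm_neg, norm_mul, norm_pow]
    have h2 : 0 < ‖(2 : ℤ_[p])‖ := norm_pos_iff.2 two_ne_zero
    have h3 : 0 < ‖(2 : ℤ_[p])‖ ^ 2 := pow_pos h2 2
    calc ‖(2 : ℤ_[p])‖ ^ 2 * ‖((2 * M * b : ℕ) : ℤ_[p])‖ < ‖(2 : ℤ_[p])‖ ^ 2 * 1 :=
          mul_lt_mul_of_pos_left hnorm h3
      _ = ‖(2 : ℤ_[p])‖ ^ 2 := mul_one _)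
  refine ⟨(z : ℚ_[p]), ?_⟩
  simp only [map_sub, map_pow, aeval_X, aeval_C] at hz
  have h4 : z ^ 2 = ((a : ℕ) : ℤ_[p]) := by
    rw [sub_eq_zero] at hz
    rw [hz]
    simp
  have h5 := congrArg (fun w : ℤ_[p] => (w : ℚ_[p])) h4
  simpa using h5

/-- a number which is a non-residue modulo `p` is not a square in `ℚ_p` -/
theorem padic_nonsquare {p : ℕ} [hp : Fact p.Prime] {a : ℕ} (h : ¬ IsSquare (a : ZMod p))
    (r : ℚ_[p]) : r ^ 2 ≠ (a : ℚ_[p]) := by
  intro hr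
  have h1 : ‖r‖ ≤ 1 := by
    have h2 : ‖r‖ ^ 2 ≤ 1 := by
      rw [← norm_pow, hr]
      exact_mod_cast Padic.norm_int_le_one (p := p) (a : ℤ)
    exact (pow_le_one_iff_of_nonneg (norm_nonneg _) two_ne_zero).1 h2
  set z : ℤ_[p] := ⟨r, h1⟩ with hz
  have h3 : z ^ 2 = (a : ℤ_[p]) := by
    apply Subtype.ext
    push_cast
    exact hr
  apply h
  refine ⟨PadicInt.toZMod z, ?_⟩
  rw [← map_mul, ← pow_two, h3, map_natCast]

theorem mem_of_sq {E C : Type} [Field E] [Field C] [Algebra E C] {j : Qb →+* C} {x : Qb} {a : ℕ}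
    (hx : x ^ 2 = (a : Qb)) {s : E} (hs : s ^ 2 = (a : E)) : x ∈ Dj E j := by
  have h1 : (j x) ^ 2 = (algebraMap E C s) ^ 2 := by
    rw [← map_pow, hx, ← map_pow, hs, map_natCast, map_natCast]
  rcases sq_eq_sq_iff_eq_or_eq_neg.1 h1 with h | h
  · exact mem_Dj.2 ⟨s, h.symm⟩
  · exact mem_Dj.2 ⟨-s, by rw [map_neg, h]⟩

/-- for every number field `L` some real quadratic field which splits at small primes is not in
`L` -/
theorem quad (N : ℕ) (L : IntermediateField ℚ Qb) (hL : NumberField L) :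
    ∃ K, Elem 2 1 (DN N) K ∧ ¬ K ≤ L := by
  obtain ⟨q, hq, hqB, ⟨σ⟩⟩ := exists_emb L (N + 2)
  set M := N.factorial with hM
  have hqM : ¬ q ∣ 8 * M := by
    intro h
    rcases (Nat.Prime.dvd_mul hq.out).1 h with h1 | h1
    · have h2 : q ∣ 2 ^ 3 := by norm_num; exact h1
      have h3 := hq.out.dvd_of_dvd_pow h2
      have := Nat.le_of_dvd (by norm_num) h3
      omega
    · have := (hq.out.dvd_factorial).1 h1
      omega
  have h8 : ((8 * M : ℕ) : ZMod q) ≠ 0 := by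
    rw [Ne, ZMod.natCast_eq_zero_iff]; exact hqM
  have hchar : ringChar (ZMod q) ≠ 2 := by
    rw [ZMod.ringChar_zmod_n]; omega
  obtain ⟨r, hr⟩ := FiniteField.exists_nonsquare hchar
  set b := ((r - 1) * ((8 * M : ℕ) : ZMod q)⁻¹).val with hb
  set a : ℕ := 1 + 8 * M * b with ha
  have har : (a : ZMod q) = r := by
    have h1 : (a : ZMod q) = 1 + ((8 * M : ℕ) : ZMod q) * (b : ZMod q) := by
      rw [ha]; push_cast; ring
    have h2 : ((8 * M : ℕ) : ZMod q) * ((8 * M : ℕ) : ZMod q)⁻¹ = 1 := mul_inv_cancel₀ h8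
    rw [h1, hb, ZMod.natCast_zmod_val]
    linear_combination (r - 1) * h2
  have hns : ¬ IsSquare (a : ZMod q) := by rw [har]; exact hr
  obtain ⟨x, hx⟩ := IsAlgClosed.exists_pow_nat_eq (a : Qb) (n := 2) (by norm_num)
  have hmem : x ∈ DN N := by
    rw [mem_DN]
    refine ⟨?_, fun p hp hpN => ?_⟩
    · exact mem_of_sq hx (s := √(a : ℝ)) (Real.sq_sqrt (Nat.cast_nonneg a))
    · have hpM : p ∣ M := hp.out.dvd_factorial.2 hpN
      obtain ⟨s, hs⟩ := padic_square hpM b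
      exact mem_of_sq hx hs
  have hroot : ∀ y : ℚ, y ^ 2 ≠ (a : ℚ) := by
    intro y hy
    apply padic_nonsquare hns (y : ℚ_[q])
    exact_mod_cast congrArg (fun w : ℚ => (w : ℚ_[q])) hy
  have hirr : Irreducible (X ^ 2 - C (a : ℚ) : ℚ[X]) := by
    apply irreducible_of_degree_le_three_of_not_isRoot
    · rw [natDegree_X_pow_sub_C]; simp
    · intro y hy
      rw [IsRoot.def, eval_sub, eval_pow, eval_X, eval_C, sub_eq_zero] at hy
      exact hroot y hy
  have hmin : X ^ 2 - C (a : ℚ) = minpoly ℚ x := by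
    apply minpoly.eq_of_irreducible_of_monic hirr
    · rw [map_sub, map_pow, aeval_X, aeval_C, hx]
      simp
    · exact monic_X_pow_sub_C _ two_ne_zero
  refine ⟨IntermediateField.adjoin ℚ {x}, elem_adjoin Nat.prime_two hmem ?_ ?_, ?_⟩
  · rw [← hmin, natDegree_X_pow_sub_C]
  · intro g
    have h1 : (g x) ^ 2 = x ^ 2 := by rw [← map_pow, hx, map_natCast]
    rcases sq_eq_sq_iff_eq_or_eq_neg.1 h1 with h | h
    · rw [h]; exact IntermediateField.mem_adjoin_simple_self ℚ x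
    · rw [h]; exact neg_mem (IntermediateField.mem_adjoin_simple_self ℚ x)
  · intro hle
    have hxL : x ∈ L := hle (IntermediateField.mem_adjoin_simple_self ℚ x)
    apply padic_nonsquare hns (σ ⟨x, hxL⟩)
    rw [← map_pow]
    have : (⟨x, hxL⟩ : L) ^ 2 = (a : L) := by
      apply Subtype.ext
      push_cast
      exact hx
    rw [this, map_natCast]

end Pool.Agent.TH72.SR
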