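import Pool.Agent.TH72.SR.Loc

/-!
Cyclic cubic fields (Shanks' simplest cubics with rational parameter) which split at small primes.
-/

set_option autoImplicit false

open Pool.Agent.TH965.St Polynomial

namespace Pool.Agent.TH72.SR

/-- the polynomial function of the simplest cubic -/
def G3 {F : Type} [Field F] (t y : F) : F := y ^ 3 - t * y ^ 2 - (t + 3) * y - 1

theorem G3_ne_zero {F : Type} [Field F] {t y : F} (h : G3 t y = 0) : y ≠ 0 ∧ 1 + y ≠ 0 := by
  constructor
  · rintro rfl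
    unfold G3 at h
    apply one_ne_zero (α := F)
    linear_combination -h
  · intro h1
    have hy : y = -1 := by linear_combination h1
    subst hy
    unfold G3 at h
    apply one_ne_zero (α := F)
    linear_combination h

theorem G3_split {F : Type} [Field F] {t s y : F} (hs : G3 t s = 0) (hy : G3 t y = 0) :
    y = s ∨ y = -(1 + s)⁻¹ ∨ y = -(1 + s) * s⁻¹ := by
  obtain ⟨h0, h1⟩ := G3_ne_zero hs
  have key : (y - s) * ((1 + s) * y + 1) * (s * y + 1 + s) = 0 := by
    have : (y - s) * ((1 + s) * y + 1) * (s * y + 1 + s) =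
        s * (1 + s) * G3 t y - (y ^ 2 + y) * G3 t s := by
      unfold G3; ring
    rw [this, hs, hy]
    ring
  rcases mul_eq_zero.1 key with h | h
  · rcases mul_eq_zero.1 h with h | h
    · left; linear_combination h
    · right; left
      field_simp
      linear_combination h
  · right; right
    field_simp
    linear_combination h

theorem G3_map {F F' : Type} [Field F] [Field F'] (φ : F →+* F') (t y : F) :
    φ (G3 t y) = G3 (φ t) (φ y) := by
  unfold G3
  simp only [map_sub, map_mul, map_pow, map_add, map_one, map_ofNat]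

/-- for some `t` modulo `q` the simplest cubic has no root -/
theorem exists_no_root (q : ℕ) [hq : Fact q.Prime] : ∃ t : ZMod q, ∀ y : ZMod q, G3 t y ≠ 0 := by
  by_contra hcon
  push Not at hcon
  choose y hy using hcon
  have hinj : Function.Injective y := by
    intro t t' h
    have h1 := hy t
    have h2 := hy t'
    rw [← h] at h2
    obtain ⟨h3, h4⟩ := G3_ne_zero h1
    unfold G3 at h1 h2
    have h5 : (t - t') * (y t * (1 + y t)) = 0 := by linear_combination h2 - h1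
    rcases mul_eq_zero.1 h5 with h | h
    · linear_combination h
    · exact absurd h (mul_ne_zero h3 h4)
  obtain ⟨t, ht⟩ := (Finite.injective_iff_surjective.1 hinj) 0
  exact (G3_ne_zero (hy t)).1 ht

theorem mem_of_G3 {E C : Type} [Field E] [Field C] [Algebra E C] {j : Qb →+* C} {x : Qb} {t : ℚ}
    (hx : G3 (t : Qb) x = 0) {s : E} (hs : G3 (t : E) s = 0) : x ∈ Dj E j := by
  have h1 : G3 (t : C) (j x) = 0 := by
    have := G3_map j (t : Qb) x
    rw [hx, map_zero, map_ratCast] at this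
    exact this.symm
  have h2 : G3 (t : C) (algebraMap E C s) = 0 := by
    have := G3_map (algebraMap E C) (t : E) s
    rw [hs, map_zero, map_ratCast] at this
    exact this.symm
  rcases G3_split h2 h1 with h | h | h
  · exact mem_Dj.2 ⟨s, h.symm⟩
  · exact mem_Dj.2 ⟨-(1 + s)⁻¹, by rw [h, map_neg, map_inv₀, map_add, map_one]⟩
  · exact mem_Dj.2 ⟨-(1 + s) * s⁻¹, by rw [h, map_mul, map_neg, map_inv₀, map_add, map_one]⟩

theorem real_root (t : ℝ) : ∃ s : ℝ, G3 t s = 0 := by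
  have hc : Continuous fun s : ℝ => G3 t s := by
    unfold G3
    fun_prop
  have h0 : G3 t 0 = -1 := by unfold G3; ring
  have h1 : G3 t (-1) = 1 := by unfold G3; ring
  have hmem : (0 : ℝ) ∈ Set.Icc (G3 t 0) (G3 t (-1)) := by
    rw [h0, h1]; constructor <;> norm_num
  obtain ⟨s, -, hs⟩ := intermediate_value_Icc' (a := (-1 : ℝ)) (b := 0) (by norm_num)
    hc.continuousOn hmem
  exact ⟨s, hs⟩

theorem coe_three {p : ℕ} [Fact p.Prime] : ((3 : ℤ_[p]) : ℚ_[p]) = 3 :=
  map_ofNat (PadicInt.Coe.ringHom (p := p)) 3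

/-- a root in `ℚ_p` for `t = (1 + M b) / M`, `p` dividing `M` -/
theorem padic_root {p : ℕ} [hp : Fact p.Prime] {M : ℕ} (hM : p ∣ M) (hM0 : M ≠ 0) (b : ℕ) :
    ∃ s : ℚ_[p], G3 ((((1 + M * b : ℕ) : ℚ) / (M : ℚ) : ℚ) : ℚ_[p]) s = 0 := by
  set u : ℤ := 1 + M * b with hu
  have hpM : (p : ℤ) ∣ (M : ℤ) := by exact_mod_cast hM
  obtain ⟨z, hz, -⟩ := hensels_lemma (p := p)
    (F := (C (M : ℤ) * X ^ 3 - C u * X ^ 2 - C (u + 3 * M) * X - C (M : ℤ) : ℤ[X]))
    (a := (0 : ℤ_[p])) (by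
    have e1 : (aeval (0 : ℤ_[p]))
        (C (M : ℤ) * X ^ 3 - C u * X ^ 2 - C (u + 3 * M) * X - C (M : ℤ) : ℤ[X]) =
        ((-(M : ℤ) : ℤ) : ℤ_[p]) := by
      simp
    have e2 : (aeval (0 : ℤ_[p])) (derivative
        (C (M : ℤ) * X ^ 3 - C u * X ^ 2 - C (u + 3 * M) * X - C (M : ℤ) : ℤ[X])) =
        ((-(u + 3 * M) : ℤ) : ℤ_[p]) := by
      simp
      left
      exact map_ofNat _ 3
    rw [e1, e2]
    have h1 : ‖((-(M : ℤ) : ℤ) : ℤ_[p])‖ < 1 := by
      rw [PadicInt.norm_int_lt_one_iff_dvd]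
      exact (dvd_neg).2 hpM
    have h2 : ‖((-(u + 3 * M) : ℤ) : ℤ_[p])‖ = 1 := by
      refine le_antisymm (PadicInt.norm_le_one _) ?_
      by_contra h
      rw [not_le, PadicInt.norm_int_lt_one_iff_dvd, dvd_neg, hu] at h
      have h3 : (p : ℤ) ∣ 1 := by
        have h4 : (p : ℤ) ∣ (M : ℤ) * (b + 3) := hpM.mul_right _
        have h5 := dvd_sub h h4
        have h6 : (1 + (M : ℤ) * b + 3 * M) - M * (b + 3) = 1 := by ring
        rwa [h6] at h5
      have h7 : p ∣ 1 := by exact_mod_cast h3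
      exact hp.out.one_lt.ne' (Nat.dvd_one.1 h7)
    rw [h2, one_pow]
    exact h1)
  refine ⟨(z : ℚ_[p]), ?_⟩
  have hMp : (M : ℚ_[p]) ≠ 0 := by exact_mod_cast hM0
  have h5 := congrArg (fun w : ℤ_[p] => (w : ℚ_[p])) hz
  simp only [map_sub, map_mul, map_pow, aeval_X, aeval_C, hu] at h5
  unfold G3
  push_cast
  push_cast at h5
  simp at h5
  rw [coe_three] at h5
  field_simp
  linear_combination h5

/-- no root in `ℚ_q` if there is no root modulo `q` -/
theorem padic_no_root {q : ℕ} [hq : Fact q.Prime] {M b : ℕ} (hM : ¬ q ∣ M) {t0 : ZMod q}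
    (h0 : ∀ y : ZMod q, G3 t0 y ≠ 0) (ht : ((1 + M * b : ℕ) : ZMod q) = t0 * (M : ZMod q))
    (r : ℚ_[q]) : G3 ((((1 + M * b : ℕ) : ℚ) / (M : ℚ) : ℚ) : ℚ_[q]) r ≠ 0 := by
  intro hr
  have hMZ : (M : ZMod q) ≠ 0 := by rw [Ne, ZMod.natCast_eq_zero_iff]; exact hM
  have hM0 : M ≠ 0 := by rintro rfl; exact hM (dvd_zero q)
  have hMp : (M : ℚ_[q]) ≠ 0 := by exact_mod_cast hM0
  have hunit : IsUnit (M : ℤ_[q]) := by
    rw [PadicInt.isUnit_iff]
    refine le_antisymm (PadicInt.norm_le_one _) ?_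
    by_contra h
    have h' : ‖((M : ℤ) : ℤ_[q])‖ < 1 := by
      rw [not_le] at h
      exact_mod_cast h
    rw [PadicInt.norm_int_lt_one_iff_dvd] at h'
    exact hM (by exact_mod_cast h')
  obtain ⟨w, hw⟩ := hunit
  have hwi : ((↑w⁻¹ : ℤ_[q]) : ℚ_[q]) * (M : ℚ_[q]) = 1 := by
    have h1 : (↑w⁻¹ : ℤ_[q]) * (M : ℤ_[q]) = 1 := by rw [← hw]; exact w.inv_mul
    have h2 := congrArg (fun w : ℤ_[q] => (w : ℚ_[q])) h1
    simpa using h2
  set T : ℤ_[q] := ((1 + M * b : ℕ) : ℤ_[q]) * ↑w⁻¹ with hT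
  have hTQ : (T : ℚ_[q]) = ((((1 + M * b : ℕ) : ℚ) / (M : ℚ) : ℚ) : ℚ_[q]) := by
    rw [hT]
    push_cast
    rw [eq_div_iff hMp]
    linear_combination (1 + (M : ℚ_[q]) * b) * hwi
  rw [← hTQ] at hr
  have hint : IsIntegral ℤ_[q] r := by
    refine ⟨X ^ 3 - C T * X ^ 2 - C (T + 3) * X - C 1, ?_, ?_⟩
    · monicity!
    · simp only [eval₂_sub, eval₂_mul, eval₂_pow, eval₂_X, eval₂_C]
      unfold G3 at hr
      rw [← hr]
      simp [PadicInt.algebraMap_apply, coe_three]
  obtain ⟨z, hz⟩ := IsIntegrallyClosed.isIntegral_iff.1 hint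
  have hz' : (z : ℚ_[q]) = r := hz
  have h3 : z ^ 3 - T * z ^ 2 - (T + 3) * z - 1 = 0 := by
    apply Subtype.ext
    push_cast
    unfold G3 at hr
    rw [← hz'] at hr
    exact_mod_cast hr
  have h4 := congrArg (PadicInt.toZMod) h3
  simp only [map_sub, map_mul, map_pow, map_add, map_one, map_zero, map_ofNat] at h4
  apply h0 (PadicInt.toZMod z)
  have h5 : PadicInt.toZMod T = t0 := by
    have h6 : T * (M : ℤ_[q]) = ((1 + M * b : ℕ) : ℤ_[q]) := by
      rw [hT, mul_assoc, ← hw, w.inv_mul, mul_one]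
    have h7 := congrArg (PadicInt.toZMod) h6
    rw [map_mul, map_natCast, map_natCast, ht] at h7
    exact mul_right_cancel₀ hMZ h7
  rw [h5] at h4
  exact h4

/-- for every number field `L` some cyclic cubic field which splits at small primes is not in
`L` -/
theorem cubic (N : ℕ) (L : IntermediateField ℚ Qb) (hL : NumberField L) :
    ∃ K, Elem 3 1 (DN N) K ∧ ¬ K ≤ L := by
  obtain ⟨q, hq, hqB, ⟨σ⟩⟩ := exists_emb L (N + 2)
  set M := N.factorial with hM
  have hM0 : M ≠ 0 := Nat.factorial_ne_zero N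
  have hqM : ¬ q ∣ M := by
    intro h
    have := (hq.out.dvd_factorial).1 h
    omega
  have hMZ : (M : ZMod q) ≠ 0 := by rw [Ne, ZMod.natCast_eq_zero_iff]; exact hqM
  obtain ⟨t0, ht0⟩ := exists_no_root q
  set b := (t0 - (M : ZMod q)⁻¹).val with hb
  have hbt : ((1 + M * b : ℕ) : ZMod q) = t0 * (M : ZMod q) := by
    push_cast
    rw [hb, ZMod.natCast_zmod_val]
    have h2 : (M : ZMod q) * (M : ZMod q)⁻¹ = 1 := mul_inv_cancel₀ hMZ
    linear_combination -h2
  set t : ℚ := ((1 + M * b : ℕ) : ℚ) / (M : ℚ) with ht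
  have hno : ∀ r : ℚ_[q], G3 (t : ℚ_[q]) r ≠ 0 := padic_no_root hqM ht0 hbt
  have hroot : ∀ y : ℚ, G3 t y ≠ 0 := by
    intro y hy
    apply hno (y : ℚ_[q])
    have := G3_map (Rat.castHom ℚ_[q]) t y
    rw [hy, map_zero] at this
    exact this.symm
  set f : ℚ[X] := X ^ 3 - C t * X ^ 2 - C (t + 3) * X - C 1 with hf
  have hfd : f.natDegree = 3 := by rw [hf]; compute_degree!
  have hfm : f.Monic := by rw [hf]; monicity!
  have hfe : ∀ y : ℚ, f.eval y = G3 t y := by
    intro y; rw [hf]; unfold G3; simp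
  have hfa : ∀ y : Qb, aeval y f = G3 (t : Qb) y := by
    intro y; rw [hf]; unfold G3; simp
  have hirr : Irreducible f := by
    apply irreducible_of_degree_le_three_of_not_isRoot
    · rw [hfd]; simp
    · intro y hy
      rw [IsRoot.def, hfe] at hy
      exact hroot y hy
  obtain ⟨x, hx⟩ := IsAlgClosed.exists_aeval_eq_zero Qb f (by
    rw [degree_eq_natDegree hirr.ne_zero, hfd]; norm_num)
  rw [hfa] at hx
  have hmem : x ∈ DN N := by
    rw [mem_DN]
    refine ⟨?_, fun p hp hpN => ?_⟩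
    · obtain ⟨s, hs⟩ := real_root (t : ℝ)
      exact mem_of_G3 hx hs
    · have hpM : p ∣ M := hp.out.dvd_factorial.2 hpN
      obtain ⟨s, hs⟩ := padic_root hpM hM0 b
      exact mem_of_G3 hx hs
  have hmin : f = minpoly ℚ x := by
    apply minpoly.eq_of_irreducible_of_monic hirr
    · rw [hfa, hx]
    · exact hfm
  refine ⟨IntermediateField.adjoin ℚ {x}, elem_adjoin Nat.prime_three hmem ?_ ?_, ?_⟩
  · rw [← hmin, hfd]
  · intro g
    have h1 : G3 (t : Qb) (g x) = 0 := by
      have := G3_map ((g : Qb ≃+* Qb) : Qb →+* Qb) (t : Qb) x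
      rw [hx, map_zero, map_ratCast] at this
      exact this.symm
    have hxm : x ∈ IntermediateField.adjoin ℚ {x} := IntermediateField.mem_adjoin_simple_self ℚ x
    rcases G3_split hx h1 with h | h | h
    · rw [h]; exact hxm
    · rw [h]; exact neg_mem (inv_mem (add_mem (one_mem _) hxm))
    · rw [h]; exact mul_mem (neg_mem (add_mem (one_mem _) hxm)) (inv_mem hxm)
  · intro hle
    have hxL : x ∈ L := hle (IntermediateField.mem_adjoin_simple_self ℚ x)
    apply hno (σ ⟨x, hxL⟩)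
    have h1 : G3 ((t : ℚ) : L) (⟨x, hxL⟩ : L) = 0 := by
      apply Subtype.ext
      unfold G3
      unfold G3 at hx
      push_cast
      exact hx
    have h2 := G3_map σ ((t : ℚ) : L) (⟨x, hxL⟩ : L)
    rw [h1, map_zero, map_ratCast] at h2
    exact h2.symm

end Pool.Agent.TH72.SR
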