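import Pool.Agent.TH72.SR.Cyc2
import Pool.Agent.TH72.SR.Cyc3

/-!
The trivial character as a difference of permutation characters of totally real elementary abelian
fields in which all small primes split completely.
-/

set_option autoImplicit false

open Pool.Agent.TH965.St Pool.Agent.TH349.ORP Polynomial

namespace Pool.Agent.TH72.SR

/-- the automorphisms of `K` commute, and all have order dividing `2` or all have order dividing
`3` -/
def Elementary (K : Type) [Field K] : Prop :=
  (∀ (σ τ : K ≃+* K) (x : K), σ (τ x) = τ (σ x)) ∧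
  ((∀ (σ : K ≃+* K) (x : K), σ (σ x) = x) ∨ ∀ (σ : K ≃+* K) (x : K), σ (σ (σ x)) = x)

/-- `K` has an embedding in `ℝ` and an embedding in `ℚ_p` for all primes `p ≤ N` (for Galois `K`: it
is totally real and all primes `p ≤ N` split completely) -/
def Splits (N : ℕ) (K : Type) [Field K] : Prop :=
  Nonempty (K →+* ℝ) ∧ ∀ (p : ℕ) (_ : Fact p.Prime), p ≤ N → Nonempty (K →+* ℚ_[p])

/-- `K` is a Galois number field of degree at least `N` with a commutative Galois group of exponent
`2` or `3`, with `K ∩ F = ℚ`, with an embedding in `ℝ` and an embedding in `ℚ_p` for all primes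
`p ≤ N` (as `K` is Galois: `K` is totally real and all primes `p ≤ N` split completely). -/
def SplitReal (N : ℕ) (F K : IntermediateField ℚ Qb) : Prop :=
  NumberField K ∧ IsGalois ℚ K ∧ N ≤ Module.finrank ℚ K ∧ K ⊓ F = ⊥ ∧ Elementary K ∧ Splits N K

theorem lift_gal' {K : IntermediateField ℚ Qb} (σ : Gal(K/ℚ)) :
    ∃ a : GQ, ∀ x : K, ((σ x : K) : Qb) = a x := by
  refine ⟨σ.liftNormal Qb, fun x => ?_⟩
  exact (σ.liftNormal_commutes Qb x).symm

theorem lift_gal {K : IntermediateField ℚ Qb} (σ : K ≃+* K) :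
    ∃ a : GQ, ∀ x : K, ((σ x : K) : Qb) = a x := by
  let σ' : Gal(K/ℚ) := AlgEquiv.ofRingEquiv (f := σ) fun q => by
    rw [eq_ratCast, map_ratCast]
  exact lift_gal' σ'

theorem splitReal_of {l N m : ℕ} (hl : l = 2 ∨ l = 3) (hm : N ≤ 2 ^ m)
    {F K : IntermediateField ℚ Qb} (h : Sp l m (DN N) F K) : SplitReal N F K := by
  obtain ⟨⟨k, hk, h1⟩, h2⟩ := h
  have hgal : IsGalois ℚ K := (InfiniteGalois.normal_iff_isGalois K).1 h1.normal
  refine ⟨h1.nf, hgal, ?_, h2, ⟨?_, ?_⟩, real_emb h1.le, fun p hp hpN => padic_emb h1.le p hpN⟩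
  · have e : Module.finrank ℚ K = K.fixingSubgroup.index :=
      IntermediateField.finrank_eq_fixingSubgroup_index Qb K
    rw [e, h1.index]
    refine hm.trans ?_
    calc 2 ^ m ≤ 2 ^ k := Nat.pow_le_pow_right (by norm_num) hk
      _ ≤ l ^ k := Nat.pow_le_pow_left (by rcases hl with rfl | rfl <;> norm_num) k
  · intro σ τ x
    obtain ⟨a, ha⟩ := lift_gal σ
    obtain ⟨b, hb⟩ := lift_gal τ
    have h3 := h1.comm a b
    rw [IntermediateField.mem_fixingSubgroup_iff] at h3
    have h4 : (a * b * a⁻¹ * b⁻¹) ((τ (σ x) : K) : Qb) = ((τ (σ x) : K) : Qb) := h3 _ (τ (σ x)).2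
    have h5 : ((τ (σ x) : K) : Qb) = (b * a) x := by rw [hb, ha]; rfl
    have h6 : (a * b * a⁻¹ * b⁻¹) ((b * a) (x : Qb)) = (a * b) (x : Qb) := by
      rw [← AlgEquiv.mul_apply]
      congr 1
      group
    have h7 : ((σ (τ x) : K) : Qb) = (a * b) x := by rw [ha, hb]; rfl
    apply Subtype.ext
    rw [h7, ← h6, ← h5, h4]
  · rcases hl with rfl | rfl
    · left
      intro σ x
      obtain ⟨a, ha⟩ := lift_gal σ
      apply Subtype.ext
      rw [ha, ha]
      have h3 := h1.pow a
      rw [IntermediateField.mem_fixingSubgroup_iff] at h3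
      exact h3 _ x.2
    · right
      intro σ x
      obtain ⟨a, ha⟩ := lift_gal σ
      apply Subtype.ext
      rw [ha, ha, ha]
      have h3 := h1.pow a
      rw [IntermediateField.mem_fixingSubgroup_iff] at h3
      exact h3 _ x.2

/-- **The trivial character** as a difference of permutation characters. -/
theorem trivial_character (N : ℕ) (F : IntermediateField ℚ Qb) (hF : NumberField F) :
    ∃ (n : ℕ) (K : Fin n → IntermediateField ℚ Qb) (n' : ℕ)
      (K' : Fin n' → IntermediateField ℚ Qb), (∀ a, SplitReal N F (K a)) ∧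
      (∀ b, SplitReal N F (K' b)) ∧
      ∀ g : GQ, ∑ a, perm (K a) g = 1 + ∑ b, perm (K' b) g := by
  have hN : N ≤ 2 ^ (N + 1) := (Nat.lt_two_pow_self (n := N)).le.trans
    (Nat.pow_le_pow_right (by norm_num) (Nat.le_succ N))
  obtain ⟨n, K, n', K', h1, h2, h3⟩ := trivial_difference (quad N) (cubic N) F hF (N + 1)
    (Nat.succ_pos N)
  refine ⟨n, K, n', K', fun a => ?_, fun b => ?_, h3⟩
  · rcases h1 a with h | h
    · exact splitReal_of (Or.inl rfl) hN h
    · exact splitReal_of (Or.inr rfl) hN h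
  · rcases h2 b with h | h
    · exact splitReal_of (Or.inl rfl) hN h
    · exact splitReal_of (Or.inr rfl) hN h

/-- the permutation character of `ℚ` is trivial -/
theorem perm_bot (g : GQ) : perm ⊥ g = 1 := by
  have key : ∀ H : Subgroup GQ, H = ⊤ → Nat.card {q : GQ ⧸ H // g • q = q} = 1 := by
    rintro H rfl
    have : Subsingleton (GQ ⧸ (⊤ : Subgroup GQ)) := QuotientGroup.subsingleton_quotient_top
    rw [Nat.card_eq_one_iff_unique]
    refine ⟨⟨?_⟩, ⟨⟨((1 : GQ) : GQ ⧸ (⊤ : Subgroup GQ)), Subsingleton.elim _ _⟩⟩⟩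
    intro x y
    exact Subtype.ext (Subsingleton.elim _ _)
  exact key _ IntermediateField.fixingSubgroup_bot

end Pool.Agent.TH72.SR
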