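import Mathlib

/-!
A partition identity for permutation characters of groups of prime exponent.
-/

set_option autoImplicit false

namespace Pool.Agent.TH72.SR

/-- number of fixed cosets -/
noncomputable def fx {G : Type} [Group G] (H : Subgroup G) (g : G) : ℕ :=
  Nat.card {q : G ⧸ H // g • q = q}

theorem fx_mem {G : Type} [Group G] (H : Subgroup G) [hn : H.Normal] {g : G} (hg : g ∈ H) :
    fx H g = H.index := by
  unfold fx Subgroup.index
  refine Nat.card_congr (Equiv.subtypeUnivEquiv fun q => ?_)
  obtain ⟨x, rfl⟩ := QuotientGroup.mk_surjective q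
  rw [MulAction.Quotient.smul_mk, smul_eq_mul, eq_comm, QuotientGroup.eq]
  have := hn.conj_mem g hg x⁻¹
  simpa [mul_assoc] using this

theorem fx_not_mem {G : Type} [Group G] (H : Subgroup G) [hn : H.Normal] {g : G} (hg : g ∉ H) :
    fx H g = 0 := by
  unfold fx
  have : IsEmpty {q : G ⧸ H // g • q = q} := by
    refine ⟨fun ⟨q, hq⟩ => hg ?_⟩
    obtain ⟨x, rfl⟩ := QuotientGroup.mk_surjective q
    rw [MulAction.Quotient.smul_mk, smul_eq_mul, eq_comm, QuotientGroup.eq] at hq
    have h2 := hn.conj_mem _ hq x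
    simpa [mul_assoc] using h2
  exact Nat.card_of_isEmpty

section

variable {A : Type} [Group A] [Finite A] {l : ℕ}

open Classical in
/-- the subgroups of order `l` -/
noncomputable def lines (A : Type) [Group A] [Finite A] (l : ℕ) : Finset (Subgroup A) :=
  letI := Fintype.ofFinite (Subgroup A)
  Finset.univ.filter fun U => Nat.card U = l

theorem mem_lines {U : Subgroup A} : U ∈ lines A l ↔ Nat.card U = l := by
  unfold lines
  simp

open Classical in
theorem unique_line (hl : l.Prime) (hA : ∀ a : A, a ^ l = 1) {a : A} (ha : a ≠ 1) :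
    ((lines A l).filter fun U => a ∈ U).card = 1 := by
  rw [Finset.card_eq_one]
  refine ⟨Subgroup.zpowers a, ?_⟩
  have ho : orderOf a = l := (Nat.dvd_prime hl).1 (orderOf_dvd_of_pow_eq_one (hA a)) |>.resolve_left
    (fun h => ha (orderOf_eq_one_iff.1 h))
  ext U
  rw [Finset.mem_filter, mem_lines, Finset.mem_singleton]
  constructor
  · rintro ⟨h1, h2⟩
    symm
    apply Subgroup.eq_of_le_of_card_ge
    · rwa [Subgroup.zpowers_le]
    · rw [h1, Nat.card_zpowers, ho]
  · rintro rfl
    exact ⟨by rw [Nat.card_zpowers, ho], Subgroup.mem_zpowers a⟩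

open Classical in
theorem card_lines (hl : l.Prime) (hA : ∀ a : A, a ^ l = 1) {m : ℕ}
    (hc : Nat.card A = l ^ (m + 1)) : ∃ c : ℕ, (lines A l).card = 1 + l * c := by
  have hF := Fintype.ofFinite A
  have h1 : ∑ a : A, ((lines A l).filter fun U => a ∈ U).card = ∑ U ∈ lines A l, Nat.card U := by
    simp only [Finset.card_filter]
    rw [Finset.sum_comm]
    refine Finset.sum_congr rfl fun U _ => ?_
    rw [← Finset.card_filter, Nat.card_eq_fintype_card, Fintype.card_subtype]
  have h2 : ∑ U ∈ lines A l, Nat.card U = (lines A l).card * l := by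
    rw [Finset.sum_congr rfl (fun U hU => mem_lines.1 hU), Finset.sum_const, smul_eq_mul]
  have h3 : ∑ a : A, ((lines A l).filter fun U => a ∈ U).card =
      (lines A l).card + (Nat.card A - 1) := by
    rw [← Finset.add_sum_erase _ _ (Finset.mem_univ (1 : A))]
    congr 1
    · congr 1
      exact Finset.filter_true_of_mem fun U _ => U.one_mem
    · rw [Finset.sum_congr rfl (g := fun _ => 1)
        (fun a ha => unique_line hl hA (Finset.ne_of_mem_erase ha))]
      rw [Finset.sum_const, smul_eq_mul, mul_one, Finset.card_erase_of_mem (Finset.mem_univ _),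
        Finset.card_univ, Nat.card_eq_fintype_card]
  rw [h3, h2, hc] at h1
  have h4 : 1 ≤ l ^ (m + 1) := Nat.one_le_pow _ _ hl.pos
  have h5 : 1 ≤ l ^ m := Nat.one_le_pow _ _ hl.pos
  have h6 : 2 ≤ l := hl.two_le
  have h7 : (lines A l).card + l ^ m * l = (lines A l).card * l + 1 := by
    rw [← pow_succ]; omega
  clear h1 h2 h3 h4
  generalize (lines A l).card = u at h7 ⊢
  generalize l ^ m = q at h5 h7
  have h8 : q ≤ u := by
    by_contra h
    push Not at h
    obtain ⟨d, rfl⟩ := Nat.exists_eq_add_of_lt h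
    obtain ⟨e, rfl⟩ := Nat.exists_eq_add_of_le h6
    nlinarith
  obtain ⟨c, hc'⟩ := Nat.exists_eq_add_of_le h8
  refine ⟨c, ?_⟩
  nlinarith

end

/-- **The partition identity.** For a normal subgroup `N` of index `l ^ (m + 1)` with commutative
quotient of exponent `l` the constant `l ^ m` is a difference of permutation characters. -/
theorem identity {G : Type} [Group G] (N : Subgroup G) [hN : N.Normal] {l : ℕ} (hl : l.Prime)
    {m : ℕ} (hi : N.index = l ^ (m + 1)) (hcomm : ∀ a b : G ⧸ N, a * b = b * a)
    (hpow : ∀ a : G ⧸ N, a ^ l = 1) :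
    ∃ (c : ℕ) (T : Finset (Subgroup G)), (∀ H ∈ T, N ≤ H ∧ H.Normal ∧ H.index = l ^ m) ∧
      ∀ g : G, ∑ H ∈ T, fx H g = l ^ m + c * fx N g := by
  classical
  have hne : N.index ≠ 0 := by rw [hi]; exact pow_ne_zero _ hl.ne_zero
  have hfin : Finite (G ⧸ N) := Nat.finite_of_card_ne_zero hne
  obtain ⟨c, hc⟩ := card_lines (A := G ⧸ N) hl hpow (m := m) hi
  have hsurj : Function.Surjective (QuotientGroup.mk' N) := QuotientGroup.mk'_surjective N
  have hinj : Function.Injective (Subgroup.comap (QuotientGroup.mk' N)) :=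
    Subgroup.comap_injective hsurj
  have hnorm : ∀ U : Subgroup (G ⧸ N), (Subgroup.comap (QuotientGroup.mk' N) U).Normal := by
    intro U
    have : U.Normal := ⟨fun n hn g => by rw [hcomm g n, mul_assoc, mul_inv_cancel, mul_one]; exact hn⟩
    infer_instance
  have hidx : ∀ U ∈ lines (G ⧸ N) l, (Subgroup.comap (QuotientGroup.mk' N) U).index = l ^ m := by
    intro U hU
    rw [Subgroup.index_comap_of_surjective _ hsurj]
    have h1 := U.card_mul_index
    rw [mem_lines.1 hU] at h1
    have h2 : Nat.card (G ⧸ N) = l ^ (m + 1) := hi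
    rw [h2, pow_succ, mul_comm] at h1
    exact Nat.eq_of_mul_eq_mul_right hl.pos h1
  refine ⟨c, (lines (G ⧸ N) l).map ⟨_, hinj⟩, ?_, fun g => ?_⟩
  · intro H hH
    rw [Finset.mem_map] at hH
    obtain ⟨U, hU, rfl⟩ := hH
    refine ⟨?_, hnorm U, hidx U hU⟩
    intro x hx
    change (QuotientGroup.mk' N) x ∈ U
    have : (QuotientGroup.mk' N) x = 1 := by
      rw [QuotientGroup.mk'_apply, QuotientGroup.eq_one_iff]; exact hx
    rw [this]
    exact U.one_mem
  · rw [Finset.sum_map]
    change ∑ x ∈ lines (G ⧸ N) l, fx (Subgroup.comap (QuotientGroup.mk' N) x) g = _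
    by_cases hg : g ∈ N
    · rw [fx_mem N hg, hi]
      have h1 : ∀ U ∈ lines (G ⧸ N) l, fx (Subgroup.comap (QuotientGroup.mk' N) U) g = l ^ m := by
        intro U hU
        have := hnorm U
        rw [fx_mem _ _, hidx U hU]
        change (QuotientGroup.mk' N) g ∈ U
        have : (QuotientGroup.mk' N) g = 1 := by
          rw [QuotientGroup.mk'_apply, QuotientGroup.eq_one_iff]; exact hg
        rw [this]
        exact U.one_mem
      rw [Finset.sum_congr rfl h1, Finset.sum_const, smul_eq_mul, hc]
      ring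
    · rw [fx_not_mem N hg, mul_zero, add_zero]
      have hg1 : (QuotientGroup.mk' N) g ≠ 1 := by
        rw [QuotientGroup.mk'_apply, Ne, QuotientGroup.eq_one_iff]; exact hg
      have h1 : ∀ U ∈ lines (G ⧸ N) l, fx (Subgroup.comap (QuotientGroup.mk' N) U) g =
          if (QuotientGroup.mk' N) g ∈ U then l ^ m else 0 := by
        intro U hU
        have := hnorm U
        split_ifs with h
        · rw [fx_mem _ (Subgroup.mem_comap.2 h), hidx U hU]
        · rw [fx_not_mem _ (fun h' => h (Subgroup.mem_comap.1 h'))]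
      rw [Finset.sum_congr rfl h1, ← Finset.sum_filter, Finset.sum_const,
        unique_line hl hpow hg1, one_smul]

end Pool.Agent.TH72.SR
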