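import Pool.Agent.TH72.SR.Tower
import Pool.Agent.TH766.HP.T_RICH

/-!
The field of totally real algebraic numbers split at small primes (for one choice of embeddings).
-/

set_option autoImplicit false

open Pool.Agent.TH965.St Polynomial

namespace Pool.Agent.TH72.SR

/-- elements of `Qb` whose image under `j` lies in `E` -/
def Dj (E : Type) {C : Type} [Field E] [Field C] [Algebra E C] (j : Qb →+* C) :
    IntermediateField ℚ Qb where
  carrier := {x | ∃ r : E, algebraMap E C r = j x}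
  mul_mem' := by
    rintro x y ⟨r, hr⟩ ⟨s, hs⟩
    exact ⟨r * s, by rw [map_mul, map_mul, hr, hs]⟩
  one_mem' := ⟨1, by rw [map_one, map_one]⟩
  add_mem' := by
    rintro x y ⟨r, hr⟩ ⟨s, hs⟩
    exact ⟨r + s, by rw [map_add, map_add, hr, hs]⟩
  zero_mem' := ⟨0, by rw [map_zero, map_zero]⟩
  algebraMap_mem' := by
    intro q
    exact ⟨(q : E), by rw [eq_ratCast, map_ratCast, map_ratCast]⟩
  inv_mem' := by
    rintro x ⟨r, hr⟩
    exact ⟨r⁻¹, by rw [map_inv₀, map_inv₀, hr]⟩

theorem mem_Dj {E C : Type} [Field E] [Field C] [Algebra E C] {j : Qb →+* C} {x : Qb} :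
    x ∈ Dj E j ↔ ∃ r : E, algebraMap E C r = j x := Iff.rfl

theorem emb_of_le {E C : Type} [Field E] [Field C] [Algebra E C] {j : Qb →+* C}
    {K : IntermediateField ℚ Qb} (h : K ≤ Dj E j) : Nonempty (K →+* E) := by
  have h' : ∀ x : K, ∃ r : E, algebraMap E C r = j x := fun x => h x.2
  choose r hr using h'
  have inj := (algebraMap E C).injective
  refine ⟨{ toFun := r, map_one' := inj ?_, map_mul' := fun x y => inj ?_, map_zero' := inj ?_,
            map_add' := fun x y => inj ?_ }⟩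
  · rw [hr, map_one]; simp
  · rw [map_mul, hr, hr, hr]; simp
  · rw [hr, map_zero]; simp
  · rw [map_add, hr, hr, hr]; simp

theorem exists_j (C : Type) [Field C] [CharZero C] [IsAlgClosed C] : Nonempty (Qb →+* C) :=
  ⟨(IsAlgClosed.lift (R := ℚ) (S := Qb) (M := C)).toRingHom⟩

/-- an embedding of the algebraic numbers in `ℂ` -/
noncomputable def jR : Qb →+* ℂ := (exists_j ℂ).some

/-- an embedding of the algebraic numbers in the algebraic closure of `ℚ_p` -/
noncomputable def jp (p : ℕ) [Fact p.Prime] : Qb →+* AlgebraicClosure ℚ_[p] :=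
  haveI : CharZero (AlgebraicClosure ℚ_[p]) :=
    charZero_of_injective_algebraMap (algebraMap ℚ_[p] (AlgebraicClosure ℚ_[p])).injective
  (exists_j (AlgebraicClosure ℚ_[p])).some

/-- real algebraic numbers which are in `ℚ_p` for all `p ≤ N` -/
noncomputable def DN (N : ℕ) : IntermediateField ℚ Qb :=
  Dj ℝ jR ⊓ ⨅ (p : ℕ) (_ : Fact p.Prime) (_ : p ≤ N), Dj ℚ_[p] (jp p)

theorem mem_DN {N : ℕ} {x : Qb} : x ∈ DN N ↔ x ∈ Dj ℝ jR ∧
    ∀ (p : ℕ) (_ : Fact p.Prime), p ≤ N → x ∈ Dj ℚ_[p] (jp p) := by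
  unfold DN
  rw [IntermediateField.mem_inf]
  simp only [← SetLike.mem_coe, IntermediateField.coe_iInf, Set.mem_iInter]

theorem real_emb {N : ℕ} {K : IntermediateField ℚ Qb} (h : K ≤ DN N) : Nonempty (K →+* ℝ) :=
  emb_of_le (j := jR) fun _ hx => (mem_DN.1 (h hx)).1

theorem padic_emb {N : ℕ} {K : IntermediateField ℚ Qb} (h : K ≤ DN N) (p : ℕ) [hp : Fact p.Prime]
    (hpN : p ≤ N) : Nonempty (K →+* ℚ_[p]) :=
  emb_of_le (j := jp p) fun _ hx => (mem_DN.1 (h hx)).2 p hp hpN

/-- number fields embed in `ℚ_p` for infinitely many `p` -/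
theorem exists_emb (M : Type) [Field M] [NumberField M] (B : ℕ) :
    ∃ (p : ℕ) (_ : Fact p.Prime), B < p ∧ Nonempty (M →+* ℚ_[p]) := by
  classical
  let pb := Field.powerBasisOfFiniteOfSeparable ℚ M
  obtain ⟨G, d, hd, hG⟩ := TH766.HP.TRICH.clear (minpoly ℚ pb.gen)
  have hdQ : (d : ℚ) ≠ 0 := by exact_mod_cast hd
  have hGd : 0 < G.natDegree := by
    have h1 : (G.map (Int.castRingHom ℚ)).natDegree = G.natDegree :=
      natDegree_map_eq_of_injective Int.cast_injective G
    rw [← h1, hG, natDegree_C_mul hdQ]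
    exact minpoly.natDegree_pos (Algebra.IsIntegral.isIntegral _)
  obtain ⟨p, hp, hB, -, hroot⟩ := TH766.HP.TRICH.main {G} B (by simpa using hGd) X (by simp)
  obtain ⟨α, hα⟩ := hroot G (Finset.mem_singleton_self _)
  have hα0 : aeval α (minpoly ℚ pb.gen) = 0 := by
    have h1 : aeval α (G.map (Int.castRingHom ℚ)) = 0 := by
      rw [← hα]
      exact aeval_map_algebraMap ℚ α G
    rw [hG, map_mul, aeval_C] at h1
    rcases mul_eq_zero.1 h1 with h | h
    · exact absurd ((map_eq_zero_iff _ (algebraMap ℚ ℚ_[p]).injective).1 h) hdQ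
    · exact h
  exact ⟨p, hp, hB, ⟨(pb.lift α hα0 : M →ₐ[ℚ] ℚ_[p]).toRingHom⟩⟩

theorem mem_fix_adjoin (x : Qb) (g : GQ) :
    g ∈ (IntermediateField.adjoin ℚ {x}).fixingSubgroup ↔ g x = x := by
  rw [IntermediateField.mem_fixingSubgroup_iff]
  have h := IntermediateField.forall_mem_adjoin_smul_eq_self_iff (S := ({x} : Set Qb)) ℚ g
  simpa using h

theorem elem_adjoin {l : ℕ} (hl : l.Prime) {D : IntermediateField ℚ Qb} {x : Qb} (hx : x ∈ D)
    (hdeg : (minpoly ℚ x).natDegree = l) (hg : ∀ g : GQ, g x ∈ IntermediateField.adjoin ℚ {x}) :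
    Elem l 1 D (IntermediateField.adjoin ℚ {x}) := by
  refine elem_of_prime hl (nf_adjoin x) ?_ ?_ ?_
  · rw [IntermediateField.adjoin_simple_le_iff]; exact hx
  · refine ⟨fun n hn g => ?_⟩
    rw [mem_fix_adjoin]
    have h1 : n (g⁻¹ x) = g⁻¹ x := by
      rw [IntermediateField.mem_fixingSubgroup_iff] at hn
      exact hn _ (hg g⁻¹)
    change g (n (g⁻¹ x)) = x
    rw [h1]
    exact AlgEquiv.apply_symm_apply g x
  · rw [← IntermediateField.finrank_eq_fixingSubgroup_index, IntermediateField.adjoin.finrank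
      (Algebra.IsAlgebraic.isAlgebraic (R := ℚ) x).isIntegral, hdeg]

end Pool.Agent.TH72.SR
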