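import Pool.Agent.TH72.SR.Grp
import Pool.Agent.TH965.St.Open
import Pool.Agent.TH349.ORP.Rep

/-!
Towers of elementary abelian fields and the trivial character as a difference of their permutation
characters.
-/

set_option autoImplicit false

open Pool.Agent.TH965.St Pool.Agent.TH349.ORP

namespace Pool.Agent.TH72.SR

/-- `L ≤ D` is a Galois number field with an elementary abelian group of order `l ^ k`. -/
structure Elem (l k : ℕ) (D L : IntermediateField ℚ Qb) : Prop where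
  nf : NumberField L
  le : L ≤ D
  normal : L.fixingSubgroup.Normal
  index : L.fixingSubgroup.index = l ^ k
  comm : ∀ a b : GQ, a * b * a⁻¹ * b⁻¹ ∈ L.fixingSubgroup
  pow : ∀ a : GQ, a ^ l ∈ L.fixingSubgroup

theorem elem_of_prime {l : ℕ} (hl : l.Prime) {D K : IntermediateField ℚ Qb} (nf : NumberField K)
    (le : K ≤ D) (normal : K.fixingSubgroup.Normal) (index : K.fixingSubgroup.index = l) :
    Elem l 1 D K := by
  have := Fact.mk hl
  have hc : Nat.card (GQ ⧸ K.fixingSubgroup) = l := index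
  have hcyc : IsCyclic (GQ ⧸ K.fixingSubgroup) := isCyclic_of_prime_card hc
  refine ⟨nf, le, normal, by rw [pow_one]; exact index, fun a b => ?_, fun a => ?_⟩
  · rw [← QuotientGroup.eq_one_iff]
    have h : (a : GQ ⧸ K.fixingSubgroup) * b = b * a :=
      hcyc.isMulCommutative.is_comm.comm (a : GQ ⧸ K.fixingSubgroup) b
    simp only [QuotientGroup.mk_mul, QuotientGroup.mk_inv]
    rw [h]
    group
  · rw [← QuotientGroup.eq_one_iff, QuotientGroup.mk_pow, ← hc]
    exact pow_card_eq_one'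

theorem elem_step {l k : ℕ} (hl : l.Prime) {D L K : IntermediateField ℚ Qb} (h1 : Elem l k D L)
    (h2 : Elem l 1 D K) (h : ¬ K ≤ L) : Elem l (k + 1) D (L ⊔ K) := by
  have e : (L ⊔ K).fixingSubgroup = L.fixingSubgroup ⊓ K.fixingSubgroup :=
    IntermediateField.fixingSubgroup_sup
  have n1 := h1.normal
  have n2 := h2.normal
  refine ⟨nf_sup h1.nf h2.nf, sup_le h1.le h2.le, ?_, ?_, ?_, ?_⟩
  · rw [e]; infer_instance
  · rw [e]
    have a1 := Subgroup.relIndex_mul_index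
      (inf_le_left : L.fixingSubgroup ⊓ K.fixingSubgroup ≤ L.fixingSubgroup)
    rw [Subgroup.inf_relIndex_left, h1.index] at a1
    have a2 : K.fixingSubgroup.relIndex L.fixingSubgroup ∣ K.fixingSubgroup.index :=
      Subgroup.relIndex_dvd_index_of_normal _ _
    rw [h2.index, pow_one] at a2
    rcases (Nat.dvd_prime hl).1 a2 with a3 | a3
    · exact absurd (fixing_le_iff.2 (Subgroup.relIndex_eq_one.1 a3)) h
    · rw [← a1, a3, pow_succ, mul_comm]
  · intro a b
    rw [e]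
    exact ⟨h1.comm a b, h2.comm a b⟩
  · intro a
    rw [e]
    exact ⟨h1.pow a, h2.pow a⟩

theorem relIndex_step {l k : ℕ} (hl : l.Prime) {D L K F : IntermediateField ℚ Qb}
    (h2 : Elem l 1 D K) (hk : L.fixingSubgroup.relIndex F.fixingSubgroup = l ^ k)
    (h : ¬ K ≤ L ⊔ F) : (L ⊔ K).fixingSubgroup.relIndex F.fixingSubgroup = l ^ (k + 1) := by
  have e : (L ⊔ K).fixingSubgroup = K.fixingSubgroup ⊓ L.fixingSubgroup := by
    rw [inf_comm]; exact IntermediateField.fixingSubgroup_sup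
  have n2 := h2.normal
  rw [e, ← Subgroup.relIndex_inf_mul_relIndex, hk]
  have a2 : K.fixingSubgroup.relIndex (L.fixingSubgroup ⊓ F.fixingSubgroup) ∣
      K.fixingSubgroup.index := Subgroup.relIndex_dvd_index_of_normal _ _
  rw [h2.index, pow_one] at a2
  rcases (Nat.dvd_prime hl).1 a2 with a3 | a3
  · refine absurd (fixing_le_iff.2 ?_) h
    rw [IntermediateField.fixingSubgroup_sup]
    exact Subgroup.relIndex_eq_one.1 a3
  · rw [a3, pow_succ, mul_comm]

theorem inf_eq_bot {l k : ℕ} (hl : l.Prime) {D L F : IntermediateField ℚ Qb} (h1 : Elem l k D L)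
    (hk : L.fixingSubgroup.relIndex F.fixingSubgroup = l ^ k) : L ⊓ F = ⊥ := by
  have n1 := h1.normal
  have a1 : L.fixingSubgroup.relIndex (L.fixingSubgroup ⊔ F.fixingSubgroup) = l ^ k := by
    rw [← hk, sup_comm]
    exact Subgroup.relIndex_sup_right _ _
  have a2 := Subgroup.relIndex_mul_index
    (le_sup_left : L.fixingSubgroup ≤ L.fixingSubgroup ⊔ F.fixingSubgroup)
  rw [a1, h1.index] at a2
  have a3 : (L.fixingSubgroup ⊔ F.fixingSubgroup).index = 1 :=
    Nat.eq_of_mul_eq_mul_left (Nat.pow_pos hl.pos) (by rw [a2, mul_one])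
  have a4 := Subgroup.index_eq_one.1 a3
  rw [eq_bot_iff, fixing_le_iff, IntermediateField.fixingSubgroup_bot, ← a4]
  refine sup_le ?_ ?_
  · exact IntermediateField.fixingSubgroup_le inf_le_left
  · exact IntermediateField.fixingSubgroup_le inf_le_right

theorem tower {l : ℕ} (hl : l.Prime) {D : IntermediateField ℚ Qb}
    (h : ∀ L : IntermediateField ℚ Qb, NumberField L → ∃ K, Elem l 1 D K ∧ ¬ K ≤ L)
    (F : IntermediateField ℚ Qb) (hF : NumberField F) (k : ℕ) :
    ∃ L, Elem l k D L ∧ L.fixingSubgroup.relIndex F.fixingSubgroup = l ^ k := by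
  induction k with
  | zero =>
    refine ⟨⊥, ⟨nf_bot, bot_le, ?_, ?_, ?_, ?_⟩, ?_⟩
    · rw [IntermediateField.fixingSubgroup_bot]; infer_instance
    · rw [IntermediateField.fixingSubgroup_bot, Subgroup.index_top, pow_zero]
    · intro a b
      rw [IntermediateField.fixingSubgroup_bot]; trivial
    · intro a
      rw [IntermediateField.fixingSubgroup_bot]; trivial
    · rw [IntermediateField.fixingSubgroup_bot, Subgroup.relIndex_top_left, pow_zero]
  | succ k ih =>
    obtain ⟨L, hL, hk⟩ := ih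
    obtain ⟨K, hK, hKL⟩ := h (L ⊔ F) (nf_sup hL.nf hF)
    exact ⟨L ⊔ K, elem_step hl hL hK fun h' => hKL (h'.trans le_sup_left),
      relIndex_step hl hK hk hKL⟩

/-- elementary abelian of exponent `l` and degree at least `l ^ m`, disjoint from `F` -/
def Sp (l m : ℕ) (D F K : IntermediateField ℚ Qb) : Prop := (∃ k, m ≤ k ∧ Elem l k D K) ∧ K ⊓ F = ⊥

theorem isRep_one {Q : IntermediateField ℚ Qb → Prop} {K : IntermediateField ℚ Qb} (h : Q K) :
    IsRep Q (fun g => perm K g) :=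
  ⟨1, fun _ => K, fun _ => h, fun g => by simp⟩

theorem isRep_mono {Q Q' : IntermediateField ℚ Qb → Prop} (h : ∀ K, Q K → Q' K) {f : GQ → ℕ}
    (hf : IsRep Q f) : IsRep Q' f := by
  obtain ⟨n, K, h1, h2⟩ := hf
  exact ⟨n, K, fun a => h _ (h1 a), h2⟩

theorem rep_const {l m : ℕ} (hl : l.Prime) {D F L : IntermediateField ℚ Qb}
    (hL : Elem l (m + 1) D L) (hF : L ⊓ F = ⊥) :
    ∃ f f' : GQ → ℕ, IsRep (Sp l m D F) f ∧ IsRep (Sp l m D F) f' ∧ ∀ g, f g = l ^ m + f' g := by
  have hn := hL.normal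
  have hcomm : ∀ a b : GQ ⧸ L.fixingSubgroup, a * b = b * a := by
    intro a b
    obtain ⟨a, rfl⟩ := QuotientGroup.mk_surjective a
    obtain ⟨b, rfl⟩ := QuotientGroup.mk_surjective b
    have h := (QuotientGroup.eq_one_iff (N := L.fixingSubgroup) _).2 (hL.comm a b)
    simp only [QuotientGroup.mk_mul, QuotientGroup.mk_inv] at h
    rw [mul_inv_eq_one, mul_inv_eq_iff_eq_mul] at h
    exact h
  have hpow : ∀ a : GQ ⧸ L.fixingSubgroup, a ^ l = 1 := by
    intro a
    obtain ⟨a, rfl⟩ := QuotientGroup.mk_surjective a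
    rw [← QuotientGroup.mk_pow, QuotientGroup.eq_one_iff]
    exact hL.pow a
  obtain ⟨c, T, hT, hid⟩ := identity L.fixingSubgroup hl hL.index hcomm hpow
  refine ⟨fun g => ∑ H ∈ T, fx H g, fun g => c * perm L g, ?_, ?_, fun g => hid g⟩
  · refine IsRep.sum T fun H hH => ?_
    obtain ⟨h1, h2, h3⟩ := hT H hH
    obtain ⟨F', hF', hFH, hFL⟩ := exists_field hL.nf H h1
    subst hFH
    refine isRep_one (K := F') ⟨⟨m, le_rfl, hF', hFL.trans hL.le, h2, h3, fun a b => ?_,
      fun a => ?_⟩, ?_⟩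
    · exact h1 (hL.comm a b)
    · exact h1 (hL.pow a)
    · rw [eq_bot_iff, ← hF]
      exact inf_le_inf_right F hFL
  · exact IsRep.mul c (isRep_one ⟨⟨m + 1, Nat.le_succ m, hL⟩, hF⟩)

/-- **The trivial character as a difference of permutation characters of elementary abelian
fields.** -/
theorem trivial_difference {D : IntermediateField ℚ Qb}
    (h2 : ∀ L : IntermediateField ℚ Qb, NumberField L → ∃ K, Elem 2 1 D K ∧ ¬ K ≤ L)
    (h3 : ∀ L : IntermediateField ℚ Qb, NumberField L → ∃ K, Elem 3 1 D K ∧ ¬ K ≤ L)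
    (F : IntermediateField ℚ Qb) (hF : NumberField F) (m : ℕ) (hm : 0 < m) :
    ∃ (n : ℕ) (K : Fin n → IntermediateField ℚ Qb) (n' : ℕ)
      (K' : Fin n' → IntermediateField ℚ Qb), (∀ a, Sp 2 m D F (K a) ∨ Sp 3 m D F (K a)) ∧
      (∀ b, Sp 2 m D F (K' b) ∨ Sp 3 m D F (K' b)) ∧
      ∀ g : GQ, ∑ a, perm (K a) g = 1 + ∑ b, perm (K' b) g := by
  obtain ⟨L2, hL2, i2⟩ := tower Nat.prime_two h2 F hF (m + 1)
  obtain ⟨L3, hL3, i3⟩ := tower Nat.prime_three h3 F hF (m + 1)
  obtain ⟨f2, f2', a1, a2, a3⟩ := rep_const Nat.prime_two hL2 (inf_eq_bot Nat.prime_two hL2 i2)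
  obtain ⟨f3, f3', b1, b2, b3⟩ := rep_const Nat.prime_three hL3 (inf_eq_bot Nat.prime_three hL3 i3)
  have m2 : ∀ K, Sp 2 m D F K → Sp 2 m D F K ∨ Sp 3 m D F K := fun K h => Or.inl h
  have m3 : ∀ K, Sp 3 m D F K → Sp 2 m D F K ∨ Sp 3 m D F K := fun K h => Or.inr h
  have hcop : Nat.Coprime (2 ^ m) (3 ^ m) := Nat.Coprime.pow _ _ (by norm_num)
  have h31 : 1 < 3 ^ m := Nat.one_lt_pow hm.ne' (by norm_num)
  obtain ⟨α, -, hα⟩ := Nat.exists_mul_mod_eq_one_of_coprime hcop h31
  set β := (2 ^ m * α) / 3 ^ m with hβ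
  have hαβ : 2 ^ m * α = 3 ^ m * β + 1 := by
    have := Nat.div_add_mod (2 ^ m * α) (3 ^ m)
    rw [hα] at this
    exact this.symm
  obtain ⟨n, K, c1, c2⟩ := (IsRep.mul α (isRep_mono m2 a1)).add (IsRep.mul β (isRep_mono m3 b2))
  obtain ⟨n', K', d1, d2⟩ := (IsRep.mul β (isRep_mono m3 b1)).add (IsRep.mul α (isRep_mono m2 a2))
  refine ⟨n, K, n', K', c1, d1, fun g => ?_⟩
  rw [← c2 g, ← d2 g]
  change α * f2 g + β * f3' g = 1 + (β * f3 g + α * f2' g)
  rw [a3 g, b3 g]
  linear_combination hαβ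

end Pool.Agent.TH72.SR
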